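import Pool.Agent.helper28.LT.Defs

set_option autoImplicit false

/-!
# LT project, module R4: few tuples with `k ^ 2 ∣ Λ`
-/

namespace Pool.Agent.helper28.LT

open Finset NumberField Pool.Agent.helper3.FT Pool.Agent.helper47.RA

theorem R4_cls (M r k : ℤ) (N : ℕ) (hk : 0 < k) (h : 2 * M < N * k) :
    ((Icc (-M) M).filter (fun m => k ∣ m - r)).card ≤ N := by
  have h1 : ((Icc (-M) M).filter (fun m => k ∣ m - r)).card ≤
      (Icc (-((M + r) / k)) ((M - r) / k)).card := by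
    refine card_le_card_of_injOn (fun m => (m - r) / k) ?_ ?_
    · intro m hm
      obtain ⟨h2, j, hj⟩ := mem_filter.1 (mem_coe.1 hm)
      obtain ⟨h3, h4⟩ := mem_Icc.1 h2
      refine mem_coe.2 (mem_Icc.2 ?_)
      have e : (m - r) / k = j := by rw [hj, Int.mul_ediv_cancel_left _ hk.ne']
      simp only [e]
      constructor
      · have : -j ≤ (M + r) / k := by
          rw [Int.le_ediv_iff_mul_le hk]
          linarith
        linarith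
      · rw [Int.le_ediv_iff_mul_le hk]
        linarith
    · intro m hm m' hm' he
      obtain ⟨-, h2⟩ := mem_filter.1 (mem_coe.1 hm)
      obtain ⟨-, h3⟩ := mem_filter.1 (mem_coe.1 hm')
      simp only at he
      have h4 := Int.mul_ediv_cancel' h2
      have h5 := Int.mul_ediv_cancel' h3
      rw [he] at h4
      linarith
  refine h1.trans ?_
  rw [Int.card_Icc]
  have h5 := Int.ediv_mul_le (M + r) hk.ne'
  have h6 := Int.ediv_mul_le (M - r) hk.ne'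
  have h7 : (M - r) / k + (M + r) / k < N := by
    by_contra hc
    push Not at hc
    nlinarith
  omega

theorem R4_quad (M b c : ℤ) (k N : ℕ) (hk : k.Prime) (h : 2 * M < N * k) :
    ((Icc (-M) M).filter (fun m => (k : ℤ) ∣ m ^ 2 + b * m + c)).card ≤ 2 * N := by
  have hk0 : (0 : ℤ) < k := by exact_mod_cast hk.pos
  rcases ((Icc (-M) M).filter (fun m => (k : ℤ) ∣ m ^ 2 + b * m + c)).eq_empty_or_nonempty with
    h0 | ⟨m₀, hm₀⟩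
  · rw [h0]
    simp
  · obtain ⟨-, h1⟩ := mem_filter.1 hm₀
    have hsub : (Icc (-M) M).filter (fun m => (k : ℤ) ∣ m ^ 2 + b * m + c) ⊆
        (Icc (-M) M).filter (fun m => (k : ℤ) ∣ m - m₀) ∪
        (Icc (-M) M).filter (fun m => (k : ℤ) ∣ m - (-m₀ - b)) := by
      intro m hm
      obtain ⟨h2, h3⟩ := mem_filter.1 hm
      have h4 : (k : ℤ) ∣ (m - m₀) * (m - (-m₀ - b)) := by
        have e : (m - m₀) * (m - (-m₀ - b)) =
          (m ^ 2 + b * m + c) - (m₀ ^ 2 + b * m₀ + c) := by ring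
        rw [e]
        exact dvd_sub h3 h1
      rcases (Nat.prime_iff_prime_int.1 hk).dvd_or_dvd h4 with h5 | h5
      · exact mem_union_left _ (mem_filter.2 ⟨h2, h5⟩)
      · exact mem_union_right _ (mem_filter.2 ⟨h2, h5⟩)
    refine (card_le_card hsub).trans ((card_union_le _ _).trans ?_)
    have h5 := R4_cls M m₀ k N hk0 h
    have h6 := R4_cls M (-m₀ - b) k N hk0 h
    omega

/-- the facts about a tuple that are used -/
structure R4_facts (κ s n k : ℕ) (m g Z Λ : ℤ) : Prop where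
  hn : n.Prime
  hk : k.Prime
  hnk : n ≠ k
  n1 : 4 * κ < n
  n2 : n ≤ 8 * κ
  k1 : 4 * κ < k
  k2 : k ≤ 8 * κ
  hm : m ∈ Icc (-((κ : ℤ) ^ 2 * s)) ((κ : ℤ) ^ 2 * s)
  hg : g ∈ Icc (-((κ : ℤ) ^ 2 * s)) ((κ : ℤ) ^ 2 * s)
  Z1 : 64 * (κ : ℤ) ^ 2 * s ^ 2 ≤ Z
  Z2 : Z ≤ 128 * (κ : ℤ) ^ 2 * s ^ 2
  e1 : m * g = Λ * (n : ℤ) ^ 2 - Z * (k : ℤ) ^ 2
  e2 : (k : ℤ) ∣ m ^ 2 - Z * (n : ℤ) ^ 2

theorem R4_get {κ s : ℕ} {t : Tpl} (ht : t ∈ TT κ s 1) :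
    R4_facts κ s t.1.1 t.1.2 t.2.1 t.2.2.1 t.2.2.2 (lam t) := by
  obtain ⟨⟨n, k⟩, m, g, Z⟩ := t
  simp only [TT, PP, cls, mem_filter, mem_product, mem_Ioc] at ht
  obtain ⟨⟨⟨⟨⟨n1, n2⟩, k1, k2⟩, hn, hk, hnk⟩, ⟨hm, -⟩, ⟨hg, -⟩, hZ⟩, h1, h2⟩ := ht
  have hZ' := mem_Icc.1 hZ
  have hcop : IsCoprime ((n : ℤ) ^ 2) ((k : ℤ) ^ 2) :=
    (Nat.isCoprime_iff_coprime.2 ((Nat.coprime_primes hn hk).2 hnk)).pow
  have h3 : (n : ℤ) ^ 2 ∣ m * g + Z * (k : ℤ) ^ 2 := by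
    have h4 : (n : ℤ) ^ 2 ∣ Z * (k : ℤ) ^ 4 + m * g * (k : ℤ) ^ 2 - g ^ 2 * (n : ℤ) ^ 2 :=
      (Dvd.intro (n : ℤ) (by ring)).trans h1
    have h5 : (n : ℤ) ^ 2 ∣ (k : ℤ) ^ 2 * (m * g + Z * (k : ℤ) ^ 2) := by
      have e : (k : ℤ) ^ 2 * (m * g + Z * (k : ℤ) ^ 2) =
        (Z * (k : ℤ) ^ 4 + m * g * (k : ℤ) ^ 2 - g ^ 2 * (n : ℤ) ^ 2) + g ^ 2 * (n : ℤ) ^ 2 := by
        ring
      rw [e]
      exact dvd_add h4 (Dvd.intro_left _ rfl)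
    exact hcop.dvd_of_dvd_mul_left h5
  refine ⟨hn, hk, hnk, n1, n2, k1, k2, ?_, ?_, hZ'.1, hZ'.2, ?_, h2⟩
  · have := mem_Icc.1 hm
    exact mem_Icc.2 ⟨by push_cast at this; exact this.1, by push_cast at this; exact this.2⟩
  · have := mem_Icc.1 hg
    exact mem_Icc.2 ⟨by push_cast at this; exact this.1, by push_cast at this; exact this.2⟩
  · have h6 : lam ((n, k), m, g, Z) * (n : ℤ) ^ 2 = m * g + Z * (k : ℤ) ^ 2 :=
      Int.ediv_mul_cancel h3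
    simp only
    linarith

theorem R4_det {κ s : ℕ} {t t' : Tpl} (ht : t ∈ TT κ s 1) (ht' : t' ∈ TT κ s 1)
    (h1 : t.1 = t'.1) (h2 : t.2.1 = t'.2.1) (h3 : t.2.2.1 = t'.2.2.1) (h4 : lam t = lam t') :
    t = t' := by
  have f := R4_get ht
  have f' := R4_get ht'
  obtain ⟨⟨n, k⟩, m, g, Z⟩ := t
  obtain ⟨⟨n', k'⟩, m', g', Z'⟩ := t'
  simp only [Prod.mk.injEq] at h1 h2 h3
  obtain ⟨rfl, rfl⟩ := h1
  subst h2 h3
  have e := f.e1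
  have e' := f'.e1
  simp only at e e'
  rw [← h4] at e'
  have hk0 : (k : ℤ) ^ 2 ≠ 0 := by
    have := f.hk.pos
    positivity
  have h5 : Z * (k : ℤ) ^ 2 = Z' * (k : ℤ) ^ 2 := by linarith
  rw [mul_right_cancel₀ hk0 h5]

theorem R4_L2 {κ s n k : ℕ} {m g Z L : ℤ} (hs : 1 ≤ s)
    (f : R4_facts κ s n k m g Z ((k : ℤ) ^ 2 * L)) : 1 ≤ L ∧ L ≤ 33 * (s : ℤ) ^ 2 := by
  have hκ : 1 ≤ κ := by
    have := f.hn.pos
    have := f.n2
    omega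
  have hκ' : (1 : ℤ) ≤ κ := by exact_mod_cast hκ
  have hs' : (1 : ℤ) ≤ s := by exact_mod_cast hs
  have hmg : |m * g| ≤ (κ : ℤ) ^ 4 * s ^ 2 := by
    have h1 := abs_le.2 (mem_Icc.1 f.hm)
    have h2 := abs_le.2 (mem_Icc.1 f.hg)
    rw [abs_mul]
    calc |m| * |g| ≤ ((κ : ℤ) ^ 2 * s) * ((κ : ℤ) ^ 2 * s) :=
          mul_le_mul h1 h2 (abs_nonneg _) (by positivity)
      _ = (κ : ℤ) ^ 4 * s ^ 2 := by ring
  have hmg' := abs_le.1 hmg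
  have k1 : (4 * κ : ℤ) < k := by exact_mod_cast f.k1
  have k2 : (k : ℤ) ≤ 8 * κ := by exact_mod_cast f.k2
  have n1 : (4 * κ : ℤ) < n := by exact_mod_cast f.n1
  have hkk : 16 * (κ : ℤ) ^ 2 < (k : ℤ) ^ 2 := by nlinarith
  have hnn : 16 * (κ : ℤ) ^ 2 < (n : ℤ) ^ 2 := by nlinarith
  have hkk' : (k : ℤ) ^ 2 ≤ 64 * (κ : ℤ) ^ 2 := by nlinarith
  have he : (k : ℤ) ^ 2 * L * (n : ℤ) ^ 2 = m * g + Z * (k : ℤ) ^ 2 := by
    have := f.e1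
    linarith
  have hκs : (0 : ℤ) < (κ : ℤ) ^ 2 * s ^ 2 := by positivity
  have hκ4 : (0 : ℤ) < (κ : ℤ) ^ 4 * s ^ 2 := by positivity
  have hZk1 : 64 * 16 * ((κ : ℤ) ^ 4 * s ^ 2) ≤ Z * (k : ℤ) ^ 2 := by
    calc 64 * 16 * ((κ : ℤ) ^ 4 * s ^ 2) = (64 * (κ : ℤ) ^ 2 * s ^ 2) * (16 * (κ : ℤ) ^ 2) := by
          ring
      _ ≤ Z * (k : ℤ) ^ 2 := mul_le_mul f.Z1 hkk.le (by positivity)
          (le_trans (by positivity) f.Z1)
  have hZk2 : Z * (k : ℤ) ^ 2 ≤ 128 * 64 * ((κ : ℤ) ^ 4 * s ^ 2) := by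
    calc Z * (k : ℤ) ^ 2 ≤ (128 * (κ : ℤ) ^ 2 * s ^ 2) * (64 * (κ : ℤ) ^ 2) :=
          mul_le_mul f.Z2 hkk' (by positivity) (by positivity)
      _ = _ := by ring
  have hP : (256 : ℤ) * (κ : ℤ) ^ 4 ≤ (k : ℤ) ^ 2 * (n : ℤ) ^ 2 := by
    calc (256 : ℤ) * (κ : ℤ) ^ 4 = (16 * (κ : ℤ) ^ 2) * (16 * (κ : ℤ) ^ 2) := by ring
      _ ≤ _ := mul_le_mul hkk.le hnn.le (by positivity) (by positivity)
  have he' : ((k : ℤ) ^ 2 * (n : ℤ) ^ 2) * L = m * g + Z * (k : ℤ) ^ 2 := by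
    rw [← he]
    ring
  have hpos : 0 < ((k : ℤ) ^ 2 * (n : ℤ) ^ 2) * L := by
    rw [he']
    linarith
  have hL : 0 < L := by
    have h0 : (0 : ℤ) < (k : ℤ) ^ 2 * (n : ℤ) ^ 2 := lt_of_lt_of_le (by positivity) hP
    exact (mul_pos_iff_of_pos_left h0).1 hpos
  refine ⟨hL, ?_⟩
  have h3 : (256 : ℤ) * (κ : ℤ) ^ 4 * L ≤ 8193 * ((κ : ℤ) ^ 4 * s ^ 2) := by
    calc (256 : ℤ) * (κ : ℤ) ^ 4 * L ≤ ((k : ℤ) ^ 2 * (n : ℤ) ^ 2) * L :=
          mul_le_mul_of_nonneg_right hP hL.le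
      _ = m * g + Z * (k : ℤ) ^ 2 := he'
      _ ≤ 8193 * ((κ : ℤ) ^ 4 * s ^ 2) := by linarith
  have h4 : (κ : ℤ) ^ 4 * (256 * L) ≤ (κ : ℤ) ^ 4 * (8193 * s ^ 2) := by linarith
  have h5 : 256 * L ≤ 8193 * (s : ℤ) ^ 2 := le_of_mul_le_mul_left h4 (by positivity)
  nlinarith

theorem R4_notdvd {κ s n k : ℕ} {m g Z L a b : ℤ} (hs : 1 ≤ s) (hκ : 100 * s ^ 2 ≤ κ)
    (f : R4_facts κ s n k m g Z ((k : ℤ) ^ 2 * L)) (h : (k : ℤ) ∣ L * (n : ℤ) ^ 2 - a * b) :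
    ¬ (k : ℤ) ∣ a := by
  intro ha
  have h1 : (k : ℤ) ∣ L * (n : ℤ) ^ 2 := by
    have h2 := dvd_add h (ha.mul_right b)
    rwa [sub_add_cancel] at h2
  have hL := R4_L2 hs f
  rcases (Nat.prime_iff_prime_int.1 f.hk).dvd_or_dvd h1 with h2 | h2
  · have h3 := Int.le_of_dvd (by linarith) h2
    have h4 : (4 * κ : ℤ) < k := by exact_mod_cast f.k1
    have h5 : (100 * (s : ℤ) ^ 2) ≤ κ := by exact_mod_cast hκ
    nlinarith
  · have h3 := (Nat.prime_iff_prime_int.1 f.hk).dvd_of_dvd_pow h2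
    have h4 := (Nat.prime_dvd_prime_iff_eq f.hk f.hn).1 (Int.natCast_dvd_natCast.1 h3)
    exact f.hnk h4.symm

theorem R4_dvdZ {κ s n k : ℕ} {m g Z Λ : ℤ} (f : R4_facts κ s n k m g Z Λ) (h : (k : ℤ) ∣ m) :
    (k : ℤ) ∣ Z := by
  have h1 : (k : ℤ) ∣ Z * (n : ℤ) ^ 2 := by
    have h2 := dvd_sub (h.mul_left m) f.e2
    have e : m * m - (m ^ 2 - Z * (n : ℤ) ^ 2) = Z * (n : ℤ) ^ 2 := by ring
    rwa [e] at h2
  rcases (Nat.prime_iff_prime_int.1 f.hk).dvd_or_dvd h1 with h2 | h2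
  · exact h2
  · have h3 := (Nat.prime_iff_prime_int.1 f.hk).dvd_of_dvd_pow h2
    have h4 := (Nat.prime_dvd_prime_iff_eq f.hk f.hn).1 (Int.natCast_dvd_natCast.1 h3)
    exact absurd h4.symm f.hnk

theorem R4_fst {κ s : ℕ} {t : Tpl} (ht : t ∈ TT κ s 1) :
    t.1 ∈ range (8 * κ + 1) ×ˢ range (8 * κ + 1) := by
  have f := R4_get ht
  have h1 := f.n2
  have h2 := f.k2
  exact mem_product.2 ⟨mem_range.2 (by omega), mem_range.2 (by omega)⟩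

theorem R4_small {κ s n k : ℕ} {m g Z Λ x y : ℤ} (f : R4_facts κ s n k m g Z Λ)
    (hx : x ∈ Icc (-((κ : ℤ) ^ 2 * s)) ((κ : ℤ) ^ 2 * s)) (h : x = (k : ℤ) ^ 2 * y) :
    y ∈ Icc (-(s : ℤ)) s := by
  have hκ : 1 ≤ κ := by
    have := f.hn.pos
    have := f.n2
    omega
  have hκ' : (0 : ℤ) < κ := by exact_mod_cast hκ
  have k1 : (4 * κ : ℤ) < k := by exact_mod_cast f.k1
  have hkk : (κ : ℤ) ^ 2 ≤ (k : ℤ) ^ 2 := by nlinarith
  have h1 := abs_le.2 (mem_Icc.1 hx)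
  rw [h, abs_mul, abs_of_nonneg (by positivity : (0 : ℤ) ≤ (k : ℤ) ^ 2)] at h1
  refine mem_Icc.2 (abs_le.1 ?_)
  have h2 : (κ : ℤ) ^ 2 * |y| ≤ (κ : ℤ) ^ 2 * s :=
    (mul_le_mul_of_nonneg_right hkk (abs_nonneg y)).trans h1
  exact le_of_mul_le_mul_left h2 (by positivity)

theorem R4_small' {κ s n k : ℕ} {m g Z Λ x y : ℤ} (f : R4_facts κ s n k m g Z Λ)
    (hx : x ∈ Icc (-((κ : ℤ) ^ 2 * s)) ((κ : ℤ) ^ 2 * s)) (h : x = (k : ℤ) * y) :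
    y ∈ Icc (-((κ : ℤ) * s)) ((κ : ℤ) * s) := by
  have hκ : 1 ≤ κ := by
    have := f.hn.pos
    have := f.n2
    omega
  have hκ' : (0 : ℤ) < κ := by exact_mod_cast hκ
  have k1 : (4 * κ : ℤ) < k := by exact_mod_cast f.k1
  have hkk : (κ : ℤ) ≤ (k : ℤ) := by linarith
  have h1 := abs_le.2 (mem_Icc.1 hx)
  rw [h, abs_mul, abs_of_nonneg (by positivity : (0 : ℤ) ≤ (k : ℤ))] at h1
  refine mem_Icc.2 (abs_le.1 ?_)
  have h2 : (κ : ℤ) * |y| ≤ (κ : ℤ) * (κ * s) := by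
    refine (mul_le_mul_of_nonneg_right hkk (abs_nonneg y)).trans (h1.trans (le_of_eq ?_))
    ring
  exact le_of_mul_le_mul_left h2 hκ'

theorem R4_N {κ s n k : ℕ} {m g Z Λ : ℤ} (hs : 1 ≤ s) (f : R4_facts κ s n k m g Z Λ) :
    2 * ((κ : ℤ) ^ 2 * s) < ((κ * s : ℕ) : ℤ) * k ∧ 2 * ((κ : ℤ) * s) < (s : ℤ) * k := by
  have hκ : 1 ≤ κ := by
    have := f.hn.pos
    have := f.n2
    omega
  have hκ' : (0 : ℤ) < κ := by exact_mod_cast hκ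
  have hs' : (0 : ℤ) < s := by exact_mod_cast hs
  have k1 : (4 * κ : ℤ) < k := by exact_mod_cast f.k1
  have hp : (0 : ℤ) < κ * s := by positivity
  constructor
  · push_cast
    nlinarith
  · nlinarith

/-- the parameters of a fibre -/
noncomputable def R4_base (κ s : ℕ) (A : ℤ) : Finset ((ℕ × ℕ) × (ℤ × ℤ)) :=
  (range (8 * κ + 1) ×ˢ range (8 * κ + 1)) ×ˢ (Icc (-A) A ×ˢ Icc 0 (33 * (s : ℤ) ^ 2))

theorem R4_base_card (κ s : ℕ) (A : ℕ) (hκ : 1 ≤ κ) (hs : 1 ≤ s) (hA : 1 ≤ A) :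
    (R4_base κ s A).card ≤ 81 * κ ^ 2 * (3 * A * (34 * s ^ 2)) := by
  rw [R4_base, card_product, card_product, card_product, card_range, Int.card_Icc, Int.card_Icc]
  have h1 : ((A : ℤ) + 1 - (-(A : ℤ))).toNat ≤ 3 * A := by omega
  have h2 : (33 * (s : ℤ) ^ 2 + 1 - 0).toNat ≤ 34 * s ^ 2 := by
    have h3 : 1 ≤ s ^ 2 := Nat.one_le_pow _ _ hs
    have e : (33 * (s : ℤ) ^ 2 + 1 - 0) = ((33 * s ^ 2 + 1 : ℕ) : ℤ) := by push_cast; ring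
    rw [e, Int.toNat_natCast]
    omega
  have h3 : (8 * κ + 1) * (8 * κ + 1) ≤ 81 * κ ^ 2 := by nlinarith
  exact Nat.mul_le_mul h3 (Nat.mul_le_mul h1 h2)

theorem R4_a (κ s : ℕ) (hs : 1 ≤ s) :
    ((TT κ s 1).filter (fun t => (t.1.2 : ℤ) ^ 2 ∣ lam t ∧ (t.1.2 : ℤ) ^ 2 ∣ t.2.2.1)).card ≤
      2 * (κ * s) * (R4_base κ s s).card := by
  refine card_le_mul_card_image_of_maps_to
    (f := fun t : Tpl => (t.1, (t.2.2.1 / (t.1.2 : ℤ) ^ 2, lam t / (t.1.2 : ℤ) ^ 2))) ?_ _ ?_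
  · intro t ht
    obtain ⟨h1, h2, h3⟩ := mem_filter.1 ht
    have f := R4_get h1
    have e2 := (Int.mul_ediv_cancel' h2).symm
    have e3 := (Int.mul_ediv_cancel' h3).symm
    have hL := R4_L2 hs (by rw [← e2]; exact f)
    exact mem_product.2 ⟨R4_fst h1, mem_product.2 ⟨R4_small f f.hg e3,
      mem_Icc.2 ⟨by linarith [hL.1], hL.2⟩⟩⟩
  · intro b _
    obtain ⟨⟨n, k⟩, g2, L⟩ := b
    rcases (filter (fun t : Tpl => (t.1, (t.2.2.1 / (t.1.2 : ℤ) ^ 2,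
      lam t / (t.1.2 : ℤ) ^ 2)) = ((n, k), (g2, L))) ((TT κ s 1).filter (fun t =>
      (t.1.2 : ℤ) ^ 2 ∣ lam t ∧ (t.1.2 : ℤ) ^ 2 ∣ t.2.2.1))).eq_empty_or_nonempty with h0 | ⟨t₀, ht₀⟩
    · rw [h0]
      simp
    · have key : ∀ t ∈ filter (fun t : Tpl => (t.1, (t.2.2.1 / (t.1.2 : ℤ) ^ 2,
          lam t / (t.1.2 : ℤ) ^ 2)) = ((n, k), (g2, L))) ((TT κ s 1).filter (fun t =>
          (t.1.2 : ℤ) ^ 2 ∣ lam t ∧ (t.1.2 : ℤ) ^ 2 ∣ t.2.2.1)), t ∈ TT κ s 1 ∧ t.1 = (n, k) ∧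
          t.2.2.1 = (k : ℤ) ^ 2 * g2 ∧ lam t = (k : ℤ) ^ 2 * L ∧
          R4_facts κ s n k t.2.1 ((k : ℤ) ^ 2 * g2) t.2.2.2 ((k : ℤ) ^ 2 * L) := by
        intro t ht
        obtain ⟨h1, h2⟩ := mem_filter.1 ht
        obtain ⟨h3, h4, h5⟩ := mem_filter.1 h1
        simp only [Prod.mk.injEq] at h2
        obtain ⟨h6, h7, h8⟩ := h2
        have e4 := (Int.mul_ediv_cancel' h4).symm
        have e5 := (Int.mul_ediv_cancel' h5).symm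
        rw [h8] at e4
        rw [h7] at e5
        have e1 : t.1.1 = n := by rw [h6]
        have e2 : t.1.2 = k := by rw [h6]
        rw [e2] at e4 e5
        refine ⟨h3, h6, e5, e4, ?_⟩
        have f := R4_get h3
        rw [e1, e2, e4, e5] at f
        exact f
      obtain ⟨-, -, -, -, f₀⟩ := key t₀ ht₀
      have hk := f₀.hk
      refine (card_le_card_of_injOn (fun t : Tpl => t.2.1)
        (t := (Icc (-((κ : ℤ) ^ 2 * s)) ((κ : ℤ) ^ 2 * s)).filter (fun m => (k : ℤ) ∣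
          m ^ 2 + (g2 * (n : ℤ) ^ 2) * m + (-(L * (n : ℤ) ^ 4)))) ?_ ?_).trans
        (R4_quad _ _ _ k (κ * s) hk (R4_N hs f₀).1)
      · intro t ht
        obtain ⟨-, -, -, -, f⟩ := key t (mem_coe.1 ht)
        refine mem_coe.2 (mem_filter.2 ⟨f.hm, ?_⟩)
        have hk0 : (k : ℤ) ^ 2 ≠ 0 := by
          have := hk.pos
          positivity
        have hZ : t.2.2.2 = L * (n : ℤ) ^ 2 - t.2.1 * g2 := by
          have := f.e1
          refine mul_right_cancel₀ hk0 ?_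
          linarith
        have e := f.e2
        rw [hZ] at e
        convert e using 1
        simp only
        ring
      · intro t ht t' ht' h
        obtain ⟨a1, a2, a3, a4, -⟩ := key t (mem_coe.1 ht)
        obtain ⟨b1, b2, b3, b4, -⟩ := key t' (mem_coe.1 ht')
        exact R4_det a1 b1 (a2.trans b2.symm) h (a3.trans b3.symm) (a4.trans b4.symm)

theorem R4_b (κ s : ℕ) (hs : 1 ≤ s) (hκ : 100 * s ^ 2 ≤ κ) :
    ((TT κ s 1).filter (fun t => (t.1.2 : ℤ) ^ 2 ∣ lam t ∧ (t.1.2 : ℤ) ^ 2 ∣ t.2.1)).card ≤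
      (κ * s) * (R4_base κ s s).card := by
  refine card_le_mul_card_image_of_maps_to
    (f := fun t : Tpl => (t.1, (t.2.1 / (t.1.2 : ℤ) ^ 2, lam t / (t.1.2 : ℤ) ^ 2))) ?_ _ ?_
  · intro t ht
    obtain ⟨h1, h2, h3⟩ := mem_filter.1 ht
    have f := R4_get h1
    have e2 := (Int.mul_ediv_cancel' h2).symm
    have e3 := (Int.mul_ediv_cancel' h3).symm
    have hL := R4_L2 hs (by rw [← e2]; exact f)
    exact mem_product.2 ⟨R4_fst h1, mem_product.2 ⟨R4_small f f.hm e3,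
      mem_Icc.2 ⟨by linarith [hL.1], hL.2⟩⟩⟩
  · intro b _
    obtain ⟨⟨n, k⟩, m2, L⟩ := b
    rcases (filter (fun t : Tpl => (t.1, (t.2.1 / (t.1.2 : ℤ) ^ 2,
      lam t / (t.1.2 : ℤ) ^ 2)) = ((n, k), (m2, L))) ((TT κ s 1).filter (fun t =>
      (t.1.2 : ℤ) ^ 2 ∣ lam t ∧ (t.1.2 : ℤ) ^ 2 ∣ t.2.1))).eq_empty_or_nonempty with h0 | ⟨t₀, ht₀⟩
    · rw [h0]
      simp
    · have key : ∀ t ∈ filter (fun t : Tpl => (t.1, (t.2.1 / (t.1.2 : ℤ) ^ 2,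
          lam t / (t.1.2 : ℤ) ^ 2)) = ((n, k), (m2, L))) ((TT κ s 1).filter (fun t =>
          (t.1.2 : ℤ) ^ 2 ∣ lam t ∧ (t.1.2 : ℤ) ^ 2 ∣ t.2.1)), t ∈ TT κ s 1 ∧ t.1 = (n, k) ∧
          t.2.1 = (k : ℤ) ^ 2 * m2 ∧ lam t = (k : ℤ) ^ 2 * L ∧
          R4_facts κ s n k ((k : ℤ) ^ 2 * m2) t.2.2.1 t.2.2.2 ((k : ℤ) ^ 2 * L) ∧
          (k : ℤ) ∣ L * (n : ℤ) ^ 2 - m2 * t.2.2.1 := by
        intro t ht
        obtain ⟨h1, h2⟩ := mem_filter.1 ht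
        obtain ⟨h3, h4, h5⟩ := mem_filter.1 h1
        simp only [Prod.mk.injEq] at h2
        obtain ⟨h6, h7, h8⟩ := h2
        have e4 := (Int.mul_ediv_cancel' h4).symm
        have e5 := (Int.mul_ediv_cancel' h5).symm
        rw [h8] at e4
        rw [h7] at e5
        have e1 : t.1.1 = n := by rw [h6]
        have e2 : t.1.2 = k := by rw [h6]
        rw [e2] at e4 e5
        have f := R4_get h3
        rw [e1, e2, e4, e5] at f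
        refine ⟨h3, h6, e5, e4, f, ?_⟩
        have hk0 : (k : ℤ) ^ 2 ≠ 0 := by
          have := f.hk.pos
          positivity
        have hZ : t.2.2.2 = L * (n : ℤ) ^ 2 - m2 * t.2.2.1 := by
          have := f.e1
          refine mul_right_cancel₀ hk0 ?_
          linarith
        rw [← hZ]
        exact R4_dvdZ f (Dvd.intro _ (by rw [pow_two, mul_assoc]))
      obtain ⟨-, -, -, -, f₀, d₀⟩ := key t₀ ht₀
      have hk := f₀.hk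
      refine (card_le_card_of_injOn (fun t : Tpl => t.2.2.1)
        (t := (Icc (-((κ : ℤ) ^ 2 * s)) ((κ : ℤ) ^ 2 * s)).filter (fun g => (k : ℤ) ∣
          g - t₀.2.2.1)) ?_ ?_).trans
        (R4_cls _ _ k (κ * s) (by exact_mod_cast hk.pos) (R4_N hs f₀).1)
      · intro t ht
        obtain ⟨-, -, -, -, f, d⟩ := key t (mem_coe.1 ht)
        refine mem_coe.2 (mem_filter.2 ⟨f.hg, ?_⟩)
        have h1 : (k : ℤ) ∣ m2 * (t.2.2.1 - t₀.2.2.1) := by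
          have e : m2 * (t.2.2.1 - t₀.2.2.1) = (L * (n : ℤ) ^ 2 - m2 * t₀.2.2.1) -
            (L * (n : ℤ) ^ 2 - m2 * t.2.2.1) := by ring
          rw [e]
          exact dvd_sub d₀ d
        exact ((Nat.prime_iff_prime_int.1 hk).dvd_or_dvd h1).resolve_left
          (R4_notdvd hs hκ f₀ d₀)
      · intro t ht t' ht' h
        obtain ⟨a1, a2, a3, a4, -⟩ := key t (mem_coe.1 ht)
        obtain ⟨b1, b2, b3, b4, -⟩ := key t' (mem_coe.1 ht')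
        exact R4_det a1 b1 (a2.trans b2.symm) (a3.trans b3.symm) h (a4.trans b4.symm)

theorem R4_c (κ s : ℕ) (hs : 1 ≤ s) (hκ : 100 * s ^ 2 ≤ κ) :
    ((TT κ s 1).filter (fun t => (t.1.2 : ℤ) ^ 2 ∣ lam t ∧ (t.1.2 : ℤ) ∣ t.2.1 ∧
      (t.1.2 : ℤ) ∣ t.2.2.1)).card ≤ s * (R4_base κ s ((κ * s : ℕ) : ℤ)).card := by
  refine card_le_mul_card_image_of_maps_to
    (f := fun t : Tpl => (t.1, (t.2.1 / (t.1.2 : ℤ), lam t / (t.1.2 : ℤ) ^ 2))) ?_ _ ?_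
  · intro t ht
    obtain ⟨h1, h2, h3, -⟩ := mem_filter.1 ht
    have f := R4_get h1
    have e2 := (Int.mul_ediv_cancel' h2).symm
    have e3 := (Int.mul_ediv_cancel' h3).symm
    have hL := R4_L2 hs (by rw [← e2]; exact f)
    have h4 := R4_small' f f.hm e3
    exact mem_product.2 ⟨R4_fst h1, mem_product.2 ⟨by push_cast; exact h4,
      mem_Icc.2 ⟨by linarith [hL.1], hL.2⟩⟩⟩
  · intro b _
    obtain ⟨⟨n, k⟩, m1, L⟩ := b
    rcases (filter (fun t : Tpl => (t.1, (t.2.1 / (t.1.2 : ℤ),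
      lam t / (t.1.2 : ℤ) ^ 2)) = ((n, k), (m1, L))) ((TT κ s 1).filter (fun t =>
      (t.1.2 : ℤ) ^ 2 ∣ lam t ∧ (t.1.2 : ℤ) ∣ t.2.1 ∧
      (t.1.2 : ℤ) ∣ t.2.2.1))).eq_empty_or_nonempty with h0 | ⟨t₀, ht₀⟩
    · rw [h0]
      simp
    · have key : ∀ t ∈ filter (fun t : Tpl => (t.1, (t.2.1 / (t.1.2 : ℤ),
          lam t / (t.1.2 : ℤ) ^ 2)) = ((n, k), (m1, L))) ((TT κ s 1).filter (fun t =>
          (t.1.2 : ℤ) ^ 2 ∣ lam t ∧ (t.1.2 : ℤ) ∣ t.2.1 ∧ (t.1.2 : ℤ) ∣ t.2.2.1)),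
          t ∈ TT κ s 1 ∧ t.1 = (n, k) ∧
          t.2.1 = (k : ℤ) * m1 ∧ lam t = (k : ℤ) ^ 2 * L ∧ t.2.2.1 = k * (t.2.2.1 / k) ∧
          R4_facts κ s n k ((k : ℤ) * m1) t.2.2.1 t.2.2.2 ((k : ℤ) ^ 2 * L) ∧
          (k : ℤ) ∣ L * (n : ℤ) ^ 2 - m1 * (t.2.2.1 / k) := by
        intro t ht
        obtain ⟨h1, h2⟩ := mem_filter.1 ht
        obtain ⟨h3, h4, h5, h5'⟩ := mem_filter.1 h1
        simp only [Prod.mk.injEq] at h2
        obtain ⟨h6, h7, h8⟩ := h2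
        have e4 := (Int.mul_ediv_cancel' h4).symm
        have e5 := (Int.mul_ediv_cancel' h5).symm
        have e5' := (Int.mul_ediv_cancel' h5').symm
        rw [h8] at e4
        rw [h7] at e5
        have e1 : t.1.1 = n := by rw [h6]
        have e2 : t.1.2 = k := by rw [h6]
        rw [e2] at e4 e5 e5'
        have f := R4_get h3
        rw [e1, e2, e4, e5] at f
        refine ⟨h3, h6, e5, e4, e5', f, ?_⟩
        have hk0 : (k : ℤ) ^ 2 ≠ 0 := by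
          have := f.hk.pos
          positivity
        have hZ : t.2.2.2 = L * (n : ℤ) ^ 2 - m1 * (t.2.2.1 / k) := by
          have e := f.e1
          rw [e5'] at e
          refine mul_right_cancel₀ hk0 ?_
          rw [sub_mul]
          have e' : m1 * (t.2.2.1 / k) * (k : ℤ) ^ 2 = (k : ℤ) * m1 * (k * (t.2.2.1 / k)) := by ring
          rw [e', e]
          ring
        rw [← hZ]
        exact R4_dvdZ f (Dvd.intro _ rfl)
      obtain ⟨-, -, -, -, -, f₀, d₀⟩ := key t₀ ht₀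
      have hk := f₀.hk
      refine (card_le_card_of_injOn (fun t : Tpl => t.2.2.1 / (k : ℤ))
        (t := (Icc (-((κ : ℤ) * s)) ((κ : ℤ) * s)).filter (fun g => (k : ℤ) ∣
          g - t₀.2.2.1 / k)) ?_ ?_).trans
        (R4_cls _ _ k s (by exact_mod_cast hk.pos) (R4_N hs f₀).2)
      · intro t ht
        obtain ⟨-, -, -, -, e5, f, d⟩ := key t (mem_coe.1 ht)
        refine mem_coe.2 (mem_filter.2 ⟨R4_small' f f.hg e5, ?_⟩)
        have h1 : (k : ℤ) ∣ m1 * (t.2.2.1 / k - t₀.2.2.1 / k) := by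
          have e : m1 * (t.2.2.1 / k - t₀.2.2.1 / k) = (L * (n : ℤ) ^ 2 - m1 * (t₀.2.2.1 / k)) -
            (L * (n : ℤ) ^ 2 - m1 * (t.2.2.1 / k)) := by ring
          rw [e]
          exact dvd_sub d₀ d
        exact ((Nat.prime_iff_prime_int.1 hk).dvd_or_dvd h1).resolve_left
          (R4_notdvd hs hκ f₀ d₀)
      · intro t ht t' ht' h
        obtain ⟨a1, a2, a3, a4, a5, -⟩ := key t (mem_coe.1 ht)
        obtain ⟨b1, b2, b3, b4, b5, -⟩ := key t' (mem_coe.1 ht')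
        simp only at h
        refine R4_det a1 b1 (a2.trans b2.symm) (a3.trans b3.symm) ?_ (a4.trans b4.symm)
        rw [a5, b5, h]

/-- R4 -/
theorem rare4 : ∃ C : ℝ, 1 ≤ C ∧ ∀ κ s : ℕ, 1 ≤ s → 100 * s ^ 2 ≤ κ →
    (((TT κ s 1).filter (fun t => (t.1.2 : ℤ) ^ 2 ∣ lam t)).card : ℝ) ≤
      C * (κ : ℝ) ^ 3 * (s : ℝ) ^ 4 := by
  refine ⟨40000, by norm_num, ?_⟩
  intro κ s hs hκ
  have hκ1 : 1 ≤ κ := by
    have : 1 ≤ s ^ 2 := Nat.one_le_pow _ _ hs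
    omega
  have hsub : (TT κ s 1).filter (fun t => (t.1.2 : ℤ) ^ 2 ∣ lam t) ⊆
      ((TT κ s 1).filter (fun t => (t.1.2 : ℤ) ^ 2 ∣ lam t ∧ (t.1.2 : ℤ) ^ 2 ∣ t.2.2.1)) ∪
      (((TT κ s 1).filter (fun t => (t.1.2 : ℤ) ^ 2 ∣ lam t ∧ (t.1.2 : ℤ) ^ 2 ∣ t.2.1)) ∪
      ((TT κ s 1).filter (fun t => (t.1.2 : ℤ) ^ 2 ∣ lam t ∧ (t.1.2 : ℤ) ∣ t.2.1 ∧
        (t.1.2 : ℤ) ∣ t.2.2.1))) := by
    intro t ht
    obtain ⟨h1, h2⟩ := mem_filter.1 ht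
    have f := R4_get h1
    have hp := Nat.prime_iff_prime_int.1 f.hk
    have h3 : (t.1.2 : ℤ) ^ 2 ∣ t.2.1 * t.2.2.1 := by
      rw [f.e1]
      exact dvd_sub (h2.mul_right _) (Dvd.intro_left _ rfl)
    by_cases h4 : (t.1.2 : ℤ) ∣ t.2.1
    · by_cases h5 : (t.1.2 : ℤ) ∣ t.2.2.1
      · exact mem_union_right _ (mem_union_right _ (mem_filter.2 ⟨h1, h2, h4, h5⟩))
      · have h6 : IsCoprime ((t.1.2 : ℤ) ^ 2) t.2.2.1 :=
          ((Prime.coprime_iff_not_dvd hp).2 h5).pow_left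
        exact mem_union_right _ (mem_union_left _ (mem_filter.2 ⟨h1, h2,
          h6.dvd_of_dvd_mul_right h3⟩))
    · have h6 : IsCoprime ((t.1.2 : ℤ) ^ 2) t.2.1 :=
        ((Prime.coprime_iff_not_dvd hp).2 h4).pow_left
      exact mem_union_left _ (mem_filter.2 ⟨h1, h2, h6.dvd_of_dvd_mul_left h3⟩)
  have hb1 := R4_base_card κ s s hκ1 hs hs
  have hb2 := R4_base_card κ s (κ * s) hκ1 hs (Nat.one_le_iff_ne_zero.2 (by positivity))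
  have h1 := (R4_a κ s hs).trans (Nat.mul_le_mul_left _ hb1)
  have h2 := (R4_b κ s hs hκ).trans (Nat.mul_le_mul_left _ hb1)
  have h3 := (R4_c κ s hs hκ).trans (Nat.mul_le_mul_left _ hb2)
  have h4 := (card_le_card hsub).trans ((card_union_le _ _).trans
    (add_le_add h1 ((card_union_le _ _).trans (add_le_add h2 h3))))
  have h5 : 2 * (κ * s) * (81 * κ ^ 2 * (3 * s * (34 * s ^ 2))) +
      (κ * s * (81 * κ ^ 2 * (3 * s * (34 * s ^ 2))) +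
        s * (81 * κ ^ 2 * (3 * (κ * s) * (34 * s ^ 2)))) = 33048 * κ ^ 3 * s ^ 4 := by ring
  rw [h5] at h4
  have h6 : (((TT κ s 1).filter (fun t => (t.1.2 : ℤ) ^ 2 ∣ lam t)).card : ℝ) ≤
      ((33048 * κ ^ 3 * s ^ 4 : ℕ) : ℝ) := by exact_mod_cast h4
  refine h6.trans ?_
  push_cast
  have : (0 : ℝ) ≤ (κ : ℝ) ^ 3 * (s : ℝ) ^ 4 := by positivity
  nlinarith

end Pool.Agent.helper28.LT
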